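import Pool.Agent.Helper24.LU.Co

/-!
# Project LT2 (MP_274814_nt), block T: good levels and the final statements

`HP q`: for every prime `p ∣ q`, `-1` is a power of `p` modulo the part of `q` prime to `p`; then the
primitive ratios generate all ratios of level `q` up to algebraic extension.
-/

set_option autoImplicit false

namespace Pool.Agent.Helper24.LU

open Set

/-- `-1` is a power of every prime `p ∣ q` modulo the part of `q` prime to `p`. -/
def HP (q : ℕ) : Prop :=
  ∀ p : ℕ, p.Prime → p ∣ q → ∃ k : ℕ, (p : ZMod (q / p ^ q.factorization p)) ^ k = -1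

theorem HP_one (p v : ℕ) (hp : p.Prime) : HP (p ^ v) := by
  intro l hl hd
  have h1 : l = p := (Nat.prime_dvd_prime_iff_eq hl hp).1 (hl.dvd_of_dvd_pow hd)
  subst h1
  refine ⟨0, ?_⟩
  have h2 : l ^ v / l ^ (l ^ v).factorization l = 1 := by
    rw [Nat.Prime.factorization_pow hl, Finsupp.single_eq_same,
      Nat.div_self (pow_pos hl.pos v)]
  rw [h2]
  exact Subsingleton.elim _ _

theorem pow_neg_one {m p k : ℕ} (h : m ∣ p ^ k + 1) : (p : ZMod m) ^ k = -1 := by
  have h1 : ((p ^ k + 1 : ℕ) : ZMod m) = 0 := (ZMod.natCast_eq_zero_iff _ _).2 h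
  push_cast at h1
  exact eq_neg_of_add_eq_zero_left h1

theorem HP_two (p v r w k l : ℕ) (hp : p.Prime) (hr : r.Prime) (hne : p ≠ r)
    (h1 : r ^ w ∣ p ^ k + 1) (h2 : p ^ v ∣ r ^ l + 1) : HP (p ^ v * r ^ w) := by
  have hp0 : p ^ v ≠ 0 := (pow_pos hp.pos v).ne'
  have hr0 : r ^ w ≠ 0 := (pow_pos hr.pos w).ne'
  intro t ht hd
  rcases (Nat.Prime.dvd_mul ht).1 hd with hd | hd
  · have h3 : t = p := (Nat.prime_dvd_prime_iff_eq ht hp).1 (ht.dvd_of_dvd_pow hd)
    subst h3
    refine ⟨k, ?_⟩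
    have h4 : t ^ v * r ^ w / t ^ (t ^ v * r ^ w).factorization t = r ^ w := by
      rw [Nat.factorization_mul hp0 hr0, Nat.Prime.factorization_pow ht,
        Nat.Prime.factorization_pow hr, Finsupp.add_apply, Finsupp.single_eq_same,
        Finsupp.single_eq_of_ne hne, add_zero,
        Nat.mul_div_cancel_left _ (pow_pos ht.pos v)]
    rw [h4]
    exact pow_neg_one h1
  · have h3 : t = r := (Nat.prime_dvd_prime_iff_eq ht hr).1 (ht.dvd_of_dvd_pow hd)
    subst h3
    refine ⟨l, ?_⟩
    have h4 : p ^ v * t ^ w / t ^ (p ^ v * t ^ w).factorization t = p ^ v := by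
      rw [Nat.factorization_mul hp0 hr0, Nat.Prime.factorization_pow ht,
        Nat.Prime.factorization_pow hp, Finsupp.add_apply, Finsupp.single_eq_same,
        Finsupp.single_eq_of_ne hne.symm, zero_add,
        Nat.mul_div_cancel _ (pow_pos ht.pos w)]
    rw [h4]
    exact pow_neg_one h2

/-- The good levels with the full number of independent ratios. -/
def goodList : List ℕ :=
  [3, 4, 5, 6, 7, 8, 9, 10, 11, 12, 13, 15, 16, 17, 18, 19, 22, 25, 26, 27, 32, 34, 35, 36, 38, 44,
    45, 50, 54]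

theorem HP_list (q : ℕ) (hq : q ∈ goodList) : HP q := by
  simp only [goodList, List.mem_cons, List.not_mem_nil, or_false] at hq
  rcases hq with h | h | h | h | h | h | h | h | h | h | h | h | h | h | h | h | h | h | h | h | h |
    h | h | h | h | h | h | h | h <;> subst h
  · exact HP_one 3 1 (by norm_num)
  · exact HP_one 2 2 (by norm_num)
  · exact HP_one 5 1 (by norm_num)
  · exact HP_two 2 1 3 1 1 0 (by norm_num) (by norm_num) (by norm_num) (by norm_num) (by norm_num)
  · exact HP_one 7 1 (by norm_num)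
  · exact HP_one 2 3 (by norm_num)
  · exact HP_one 3 2 (by norm_num)
  · exact HP_two 2 1 5 1 2 0 (by norm_num) (by norm_num) (by norm_num) (by norm_num) (by norm_num)
  · exact HP_one 11 1 (by norm_num)
  · exact HP_two 2 2 3 1 1 1 (by norm_num) (by norm_num) (by norm_num) (by norm_num) (by norm_num)
  · exact HP_one 13 1 (by norm_num)
  · exact HP_two 3 1 5 1 2 1 (by norm_num) (by norm_num) (by norm_num) (by norm_num) (by norm_num)
  · exact HP_one 2 4 (by norm_num)
  · exact HP_one 17 1 (by norm_num)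
  · exact HP_two 2 1 3 2 3 0 (by norm_num) (by norm_num) (by norm_num) (by norm_num) (by norm_num)
  · exact HP_one 19 1 (by norm_num)
  · exact HP_two 2 1 11 1 5 0 (by norm_num) (by norm_num) (by norm_num) (by norm_num) (by norm_num)
  · exact HP_one 5 2 (by norm_num)
  · exact HP_two 2 1 13 1 6 0 (by norm_num) (by norm_num) (by norm_num) (by norm_num) (by norm_num)
  · exact HP_one 3 3 (by norm_num)
  · exact HP_one 2 5 (by norm_num)
  · exact HP_two 2 1 17 1 4 0 (by norm_num) (by norm_num) (by norm_num) (by norm_num) (by norm_num)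
  · exact HP_two 5 1 7 1 3 2 (by norm_num) (by norm_num) (by norm_num) (by norm_num) (by norm_num)
  · exact HP_two 2 2 3 2 3 1 (by norm_num) (by norm_num) (by norm_num) (by norm_num) (by norm_num)
  · exact HP_two 2 1 19 1 9 0 (by norm_num) (by norm_num) (by norm_num) (by norm_num) (by norm_num)
  · exact HP_two 2 2 11 1 5 1 (by norm_num) (by norm_num) (by norm_num) (by norm_num) (by norm_num)
  · exact HP_two 3 2 5 1 2 3 (by norm_num) (by norm_num) (by norm_num) (by norm_num) (by norm_num)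
  · exact HP_two 2 1 5 2 10 0 (by norm_num) (by norm_num) (by norm_num) (by norm_num) (by norm_num)
  · exact HP_two 2 1 3 3 9 0 (by norm_num) (by norm_num) (by norm_num) (by norm_num) (by norm_num)

/-- All ratios are algebraic over the primitive ones. -/
theorem alg_prim (q : ℕ) (hq : 2 < q) (hpow : HP q) (a : ℕ) (h1 : 1 ≤ a) (h2 : a < q) :
    IsAlgebraic (Algebra.adjoin ℚ (Set.range fun a : Pidx q => ((Rr q a : ℝ) : ℂ)))
      ((Rr q a : ℝ) : ℂ) := by
  apply alg_adjoin
  apply ratio_all q hq hpow _ _ a h1 h2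
  intro c hc1 hc2 hc
  set K := IntermediateField.adjoin ℚ (Set.range fun a : Pidx q => ((Rr q a : ℝ) : ℂ))
  have hmem : ∀ b : ℕ, 2 * b < q → b.Coprime q → ((Rr q b : ℝ) : ℂ) ∈ K := by
    intro b hb hbc
    apply IntermediateField.subset_adjoin
    refine ⟨⟨b, ?_⟩, rfl⟩
    rw [Finset.mem_filter, Finset.mem_range]
    exact ⟨by omega, hb, hbc⟩
  apply Pool.Agent.Helper24.GammaTr.isAlg_of_mem
  rcases Nat.lt_or_ge (2 * c) q with h3 | h3
  · exact hmem c h3 hc
  · have h4 : 2 * c ≠ q := by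
      intro h4
      rw [← h4] at hc
      have h6 : c ∣ 1 := by
        have := Nat.dvd_gcd (dvd_refl c) (Dvd.intro_left 2 rfl : c ∣ 2 * c)
        rwa [hc] at this
      have : c = 1 := Nat.dvd_one.1 h6
      omega
    have h5 : ((Rr q (q - c) : ℝ) : ℂ) ∈ K :=
      hmem (q - c) (by omega) ((Nat.coprime_self_sub_left (by omega)).2 hc)
    rw [Rr_symm q c hc2.le (by omega)] at h5
    push_cast at h5
    have := K.inv_mem h5
    rwa [inv_inv] at this

/-- `n` of the primitive ratios are algebraically independent. -/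
def HasIndP (q n : ℕ) : Prop :=
  ∃ f : Fin n → Pidx q, AlgebraicIndependent ℚ (fun k => Rr q (f k))

theorem HasInd.toP {q n : ℕ} (hq : 2 < q) (hpow : HP q) (h : HasInd q n) : HasIndP q n := by
  obtain ⟨f, hf⟩ := h
  rcases n with _ | n
  · refine ⟨Fin.elim0, ?_⟩
    have : IsEmpty (Fin 0) := inferInstance
    exact algebraicIndependent_empty_type_iff.2 (algebraMap ℚ ℝ).injective
  · obtain ⟨g, hg⟩ := transfer (fun a : Pidx q => ((Rr q a : ℝ) : ℂ))
      (fun a : {a : ℕ // 1 ≤ a ∧ a < q} => ((Rr q a : ℝ) : ℂ)) n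
      (fun a => alg_prim q hq hpow a a.2.1 a.2.2) f (real_iff.2 hf)
    exact ⟨g, real_iff.1 hg⟩

/-- The field of the problem. -/
theorem HasInd.trdeg_F {q n : ℕ} (hq : 2 < q) (hpow : HP q) (h : HasInd q n)
    (F : IntermediateField ℚ ℂ) (hpi : (Real.pi : ℂ) ∈ F)
    (hG : ∀ a : ℕ, 1 ≤ a → a < q → a.Coprime q → Complex.Gamma ((a : ℂ) / q) ∈ F) :
    (n : Cardinal) ≤ Algebra.trdeg ℚ F := by
  apply h.trdeg_le F
  intro a h1 h2
  apply ratio_all q hq hpow F _ a h1 h2
  intro c hc1 hc2 hc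
  exact Rr_alg_of_mem F q c hc1 hc2 hpi (hG c hc1 hc2 hc)

/-- The final statements from the core. -/
theorem final_A (Good : ℕ → ℕ → Prop) (core : ∀ d n, 3 ≤ d → Good d n → HasInd d (n + 1))
    (q m : ℕ) (hq : 3 ≤ q) (hm : 1 ≤ m) (h : ∃ d, d ∣ q ∧ 3 ≤ d ∧ Good d (m - 1)) :
    HasInd q m := by
  obtain ⟨d, hd, h3, hg⟩ := h
  have h1 := (core d (m - 1) h3 hg).level (by omega) hd
  rwa [Nat.sub_add_cancel hm] at h1

end Pool.Agent.Helper24.LU
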