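import Pool.Agent.Helper24.LU.Fs
import Pool.Agent.Helper32.LU.Tb

/-!
# Project LT2 (MP_274814_nt), block T: the final statement from the core
-/

set_option autoImplicit false

namespace Pool.Agent.Helper24.LU

open Set
open Pool.Agent.Helper44.LT (PU)
open Pool.Agent.Helper32.LU (Pr Good Lp Lf)

/-- The places `u` prime to `q` with `(u a mod q) + (u b mod q) > q`. -/
def Hh (q a b : ℕ) : Finset ℕ :=
  (Finset.range q).filter fun u => u.Coprime q ∧ q < (u * a) % q + (u * b) % q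

theorem Hh_eq {q : ℕ} (hq : 3 ≤ q) (a b : ℕ) : Hh q a b = PU q a b := by
  ext u
  simp only [Hh, PU, Finset.mem_filter, Finset.mem_range, Finset.mem_Icc]
  constructor
  · rintro ⟨h1, h2, h3⟩
    refine ⟨⟨⟨?_, by omega⟩, h3⟩, h2⟩
    rcases Nat.eq_zero_or_pos u with h | h
    · rw [h, Nat.coprime_zero_left] at h2; omega
    · exact h
  · rintro ⟨⟨⟨h1, h2⟩, h3⟩, h4⟩
    exact ⟨by omega, h4, h3⟩

/-- `n` of the numbers `Γ (a / q) / Γ (1 - a / q)`, `1 ≤ a < q`, are algebraically independent. -/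
def Ind (q n : ℕ) : Prop :=
  ∃ S : Finset ℕ, S.card = n ∧ (∀ a ∈ S, 1 ≤ a ∧ a < q) ∧
    AlgebraicIndependent ℚ
      (fun a : S => Real.Gamma ((a : ℕ) / q) / Real.Gamma (1 - (a : ℕ) / q))

/-- The same with `a` prime to `q`. -/
def IndP (q n : ℕ) : Prop :=
  ∃ S : Finset ℕ, S.card = n ∧ (∀ a ∈ S, 1 ≤ a ∧ a < q ∧ a.Coprime q) ∧
    AlgebraicIndependent ℚ
      (fun a : S => Real.Gamma ((a : ℕ) / q) / Real.Gamma (1 - (a : ℕ) / q))

/-- From families to finite sets. -/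
theorem fam_to_set {I : Type*} (v : I → ℕ) (R : ℕ → ℝ) (n : ℕ) (f : Fin n → I)
    (hf : AlgebraicIndependent ℚ (fun k => R (v (f k)))) :
    ∃ S : Finset ℕ, S.card = n ∧ (∀ a ∈ S, ∃ i, v i = a) ∧
      AlgebraicIndependent ℚ (fun a : S => R (a : ℕ)) := by
  classical
  have hinj : Function.Injective (fun k => v (f k)) := by
    intro i j hij
    apply hf.injective
    simp only at hij ⊢
    rw [hij]
  refine ⟨Finset.univ.image (fun k => v (f k)), ?_, ?_, ?_⟩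
  · rw [Finset.card_image_of_injective _ hinj, Finset.card_univ, Fintype.card_fin]
  · intro a ha
    obtain ⟨k, -, hk⟩ := Finset.mem_image.1 ha
    exact ⟨f k, hk⟩
  · have hch : ∀ a : (Finset.univ.image (fun k => v (f k)) : Finset ℕ),
        ∃ k : Fin n, v (f k) = (a : ℕ) := by
      intro a
      obtain ⟨k, -, hk⟩ := Finset.mem_image.1 a.2
      exact ⟨k, hk⟩
    choose g hg using hch
    have hg1 : Function.Injective g := by
      intro a b hab
      apply Subtype.ext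
      rw [← hg a, ← hg b, hab]
    have h1 := hf.comp g hg1
    have h2 : ((fun k => R (v (f k))) ∘ g) =
        fun a : (Finset.univ.image (fun k => v (f k)) : Finset ℕ) => R (a : ℕ) := by
      funext a
      simp only [Function.comp_apply, hg a]
    rwa [h2] at h1

theorem HasInd.toInd {q n : ℕ} (h : HasInd q n) : Ind q n := by
  obtain ⟨f, hf⟩ := h
  obtain ⟨S, h1, h2, h3⟩ := fam_to_set (fun a : {a : ℕ // 1 ≤ a ∧ a < q} => (a : ℕ)) (Rr q) n f hf
  refine ⟨S, h1, ?_, h3⟩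
  intro a ha
  obtain ⟨i, rfl⟩ := h2 a ha
  exact i.2

theorem HasIndP.toIndP {q n : ℕ} (hq : 2 < q) (h : HasIndP q n) : IndP q n := by
  obtain ⟨f, hf⟩ := h
  obtain ⟨S, h1, h2, h3⟩ := fam_to_set (fun a : Pidx q => (a : ℕ)) (Rr q) n f hf
  refine ⟨S, h1, ?_, h3⟩
  intro a ha
  obtain ⟨i, rfl⟩ := h2 a ha
  have h4 := i.2
  rw [Finset.mem_filter, Finset.mem_range] at h4
  refine ⟨?_, h4.1, h4.2.2⟩
  rcases Nat.eq_zero_or_pos (i : ℕ) with h | h
  · have h5 := h4.2.2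
    rw [h, Nat.coprime_zero_left] at h5
    omega
  · exact h

/-- The family of the primitive ratios. -/
theorem prim_fam (q : ℕ) (_hq : 2 < q) (h : AlgebraicIndependent ℚ (fun a : Pidx q => Rr q a)) :
    AlgebraicIndependent ℚ (fun a : {a : ℕ // 1 ≤ a ∧ 2 * a < q ∧ a.Coprime q} =>
      Real.Gamma ((a : ℕ) / q) / Real.Gamma (1 - (a : ℕ) / q)) := by
  have hm : ∀ a : {a : ℕ // 1 ≤ a ∧ 2 * a < q ∧ a.Coprime q},
      (a : ℕ) ∈ (Finset.range q).filter (fun a => 2 * a < q ∧ a.Coprime q) := by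
    intro a
    rw [Finset.mem_filter, Finset.mem_range]
    exact ⟨by have := a.2.2.1; omega, a.2.2⟩
  have h1 := h.comp (fun a : {a : ℕ // 1 ≤ a ∧ 2 * a < q ∧ a.Coprime q} =>
    (⟨(a : ℕ), hm a⟩ : Pidx q)) (by
      intro a b hab
      apply Subtype.ext
      exact congrArg (fun x : Pidx q => (x : ℕ)) hab)
  exact h1

/-- The field of the problem: `π` and the `Γ (a / q)`, `a` prime to `q`. -/
theorem trdeg_F' {q n : ℕ} (hq : 2 < q) (hpow : HP q) (h : HasInd q n) :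
    (n : Cardinal) ≤ Algebra.trdeg ℚ (Pool.Agent.Helper24.LRDefs.F q) := by
  refine h.trdeg_F hq hpow _ ?_ ?_
  · exact IntermediateField.subset_adjoin ℚ _ (Or.inl rfl)
  · intro a h1 h2 h3
    exact IntermediateField.subset_adjoin ℚ _ (Or.inr ⟨a, h1, by omega, h3, rfl⟩)

/-- the final statement -/
def Final : Prop :=
  (∀ q a b c d n : ℕ, 3 ≤ q → ¬ q ∣ a → ¬ q ∣ b → (a + b).Coprime q → ¬ q ∣ c → ¬ q ∣ d →
    (c + d).Coprime q → Hh q a b ≠ Hh q c d → n * (Hh q a b \ Hh q c d).card < q.totient / 2 →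
    Ind q (n + 1)) ∧
  (∀ q ∈ Lp, AlgebraicIndependent ℚ (fun a : {a : ℕ // 1 ≤ a ∧ 2 * a < q ∧ a.Coprime q} =>
      Real.Gamma ((a : ℕ) / q) / Real.Gamma (1 - (a : ℕ) / q))) ∧
  (∀ q ∈ Lf, Ind q (q.totient / 2)) ∧
  (∀ q : ℕ, 3 ≤ q → q ≠ 60 → Ind q (min 6 (q.totient / 2))) ∧
  (∀ p v : ℕ, p.Prime → 3 ≤ p ^ v → IndP (p ^ v) (min 6 ((p ^ v).totient / 2))) ∧
  (∀ q : ℕ, 0 < q → 35 ∣ q ∨ 45 ∣ q → Ind q 12) ∧
  (∀ q : ℕ, 0 < q → 25 ∣ q ∨ 33 ∣ q ∨ 44 ∣ q → Ind q 10) ∧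
  (∀ q ∈ Lp, ((q.totient / 2 : ℕ) : Cardinal) ≤ Algebra.trdeg ℚ (Pool.Agent.Helper24.LRDefs.F q)) ∧
  (∀ p v : ℕ, p.Prime → 3 ≤ p ^ v → ((min 6 ((p ^ v).totient / 2) : ℕ) : Cardinal) ≤
    Algebra.trdeg ℚ (Pool.Agent.Helper24.LRDefs.F (p ^ v)))

theorem tot_pos {q : ℕ} (hq : 3 ≤ q) : 1 ≤ q.totient / 2 := by
  have h1 : 0 < q.totient := Nat.totient_pos.2 (by omega)
  have h2 : Even q.totient := Nat.totient_even (by omega)
  obtain ⟨k, hk⟩ := h2
  omega

theorem final (core : ∀ q a b c d n : ℕ, 3 ≤ q → Pr q a b → Pr q c d → PU q a b ≠ PU q c d →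
    n * (PU q a b \ PU q c d).card < q.totient / 2 → HasInd q (n + 1)) : Final := by
  have core' : ∀ d n, 3 ≤ d → Good d n → HasInd d (n + 1) := by
    intro d n h3 hg
    obtain ⟨a, b, c, e, h1, h2, h4, h5⟩ := hg
    exact core d a b c e n h3 h1 h2 (Pool.Agent.Helper32.LU.ne_of_card h4) h5
  have hfull : ∀ q ∈ Lf, HasInd q (q.totient / 2) := by
    intro q hq
    obtain ⟨d, hd, h3, h4, hg⟩ := Pool.Agent.Helper32.LU.good_full q hq
    have hq0 : 0 < q := by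
      have h : ∀ x ∈ Lf, 0 < x := by decide
      exact h q hq
    exact final_A Good core' q _ (h3.trans (Nat.le_of_dvd hq0 hd))
      (h4 ▸ tot_pos h3) ⟨d, hd, h3, hg⟩
  have hall : ∀ q : ℕ, 3 ≤ q → q ≠ 60 → HasInd q (min 6 (q.totient / 2)) := by
    intro q hq h60
    have := tot_pos hq
    exact final_A Good core' q _ hq (by omega) (Pool.Agent.Helper32.LU.good_all q hq h60)
  have h60 : ∀ p v : ℕ, p.Prime → p ^ v ≠ 60 := by
    intro p v hp h
    have h2 : 2 ∣ p ^ v := by rw [h]; norm_num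
    have h5 : 3 ∣ p ^ v := by rw [h]; norm_num
    have h6 := (Nat.prime_dvd_prime_iff_eq Nat.prime_two hp).1 (Nat.prime_two.dvd_of_dvd_pow h2)
    have h7 := (Nat.prime_dvd_prime_iff_eq Nat.prime_three hp).1
      (Nat.prime_three.dvd_of_dvd_pow h5)
    omega
  have hLp : ∀ q ∈ Lp, 2 < q := by decide
  refine ⟨?_, ?_, ?_, ?_, ?_, ?_, ?_, ?_, ?_⟩
  · intro q a b c d n h3 ha hb hab hc hd hcd hne hn
    rw [Hh_eq h3, Hh_eq h3] at hne hn
    exact (core q a b c d n h3 ⟨ha, hb, hab⟩ ⟨hc, hd, hcd⟩ hne hn).toInd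
  · intro q hq
    exact prim_fam q (hLp q hq) ((hfull q (Pool.Agent.Helper32.LU.Lp_sub q hq)).prim (hLp q hq)
      (fun p hp hd => Pool.Agent.Helper32.LU.crit q hq p hp hd))
  · intro q hq
    exact (hfull q hq).toInd
  · intro q hq h60
    exact (hall q hq h60).toInd
  · intro p v hp h3
    exact ((hall _ h3 (h60 p v hp)).toP (by omega) (HP_one p v hp)).toIndP (by omega)
  · intro q hq h
    obtain ⟨d, hd, h3, hg⟩ := Pool.Agent.Helper32.LU.good_twelve q h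
    exact (final_A Good core' q 12 (h3.trans (Nat.le_of_dvd hq hd)) (by norm_num)
      ⟨d, hd, h3, hg⟩).toInd
  · intro q hq h
    obtain ⟨d, hd, h3, hg⟩ := Pool.Agent.Helper32.LU.good_ten q h
    exact (final_A Good core' q 10 (h3.trans (Nat.le_of_dvd hq hd)) (by norm_num)
      ⟨d, hd, h3, hg⟩).toInd
  · intro q hq
    exact trdeg_F' (hLp q hq) (fun p hp hd => Pool.Agent.Helper32.LU.crit q hq p hp hd)
      (hfull q (Pool.Agent.Helper32.LU.Lp_sub q hq))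
  · intro p v hp h3
    exact trdeg_F' (by omega) (HP_one p v hp) (hall _ h3 (h60 p v hp))

end Pool.Agent.Helper24.LU
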