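import Mathlib

/-!
# Project LT2 (MP_274814_nt), block T: transfer of transcendence degrees
-/

open Set

namespace Pool.Agent.Helper24.LU

/-- `n + 1` independent elements among the elements algebraic over a family give `n + 1`
independent members of the family. -/
theorem transfer {I J : Type*} (R : I → ℂ) (s : J → ℂ) (n : ℕ)
    (halg : ∀ j, IsAlgebraic (Algebra.adjoin ℚ (range R)) (s j))
    (f : Fin (n + 1) → J) (hf : AlgebraicIndependent ℚ (fun k => s (f k))) :
    ∃ g : Fin (n + 1) → I, AlgebraicIndependent ℚ (fun k => R (g k)) := by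
  classical
  set M := AlgebraicIndependent.matroid ℚ ℂ with hM
  have hinj : Function.Injective (fun k => s (f k)) := hf.injective
  have h1 : M.Indep (range fun k => s (f k)) :=
    AlgebraicIndependent.matroid_indep_iff.2 hf.coe_range
  have h2 : (range fun k => s (f k)) ⊆ M.closure (range R) := by
    rw [hM, AlgebraicIndependent.matroid_closure_eq]
    rintro _ ⟨k, rfl⟩
    rw [SetLike.mem_coe, Subalgebra.mem_algebraicClosure]
    exact halg (f k)
  have h3 : (range fun k => s (f k)).encard = ((n + 1 : ℕ) : ℕ∞) := by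
    rw [← Set.image_univ, hinj.encard_image, Set.encard_univ, ENat.card_eq_coe_fintype_card,
      Fintype.card_fin]
  have h4 : ((n + 1 : ℕ) : ℕ∞) ≤ M.eRk (range R) := by
    rw [← M.eRk_closure_eq, ← h3, ← h1.eRk_eq_encard]
    exact M.eRk_mono h2
  obtain ⟨X, hXR, hX, hXc⟩ := Matroid.le_eRk_iff.1 h4
  have hXfin : X.Finite := Set.finite_of_encard_eq_coe hXc
  have hX' : AlgebraicIndependent ℚ (fun x : X => (x : ℂ)) :=
    AlgebraicIndependent.matroid_indep_iff.1 hX
  have : Fintype X := hXfin.fintype
  have hcard : Fintype.card X = n + 1 := by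
    rw [Set.encard_eq_coe_toFinset_card, Set.toFinset_card] at hXc
    exact_mod_cast hXc
  let e : Fin (n + 1) ≃ X := (Fintype.equivFinOfCardEq hcard).symm
  choose g hg using fun k => hXR (e k).2
  refine ⟨g, ?_⟩
  have h5 : (fun k => R (g k)) = (fun x : X => (x : ℂ)) ∘ e := by
    funext k
    exact hg k
  rw [h5]
  exact hX'.comp _ e.injective

end Pool.Agent.Helper24.LU
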