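import Pool.Agent.Helper34.LT.Df
import Pool.Agent.Helper24.LU.Tr

/-!
# Project LT2 (MP_274814_nt), block T: the scales over the field of the ratios
-/

set_option autoImplicit false

namespace Pool.Agent.Helper24.LU

open Finset
open Pool.Agent.Helper34.LT

/-- The ratio `Γ (a / q) / Γ (1 - a / q)`. -/
noncomputable def Rr (q a : ℕ) : ℝ := Real.Gamma ((a : ℝ) / q) / Real.Gamma (1 - (a : ℝ) / q)

/-- The algebra generated by the ratios of level `q`. -/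
noncomputable abbrev KR (q : ℕ) : Subalgebra ℚ ℂ :=
  Algebra.adjoin ℚ (Set.range fun a : {a : ℕ // 1 ≤ a ∧ a < q} => ((Rr q a : ℝ) : ℂ))

theorem alg_root {z : ℂ} {n : ℕ} (hn : 0 < n) (h : z ^ n = 1) : IsAlgebraic ℚ z := by
  refine ⟨Polynomial.X ^ n - 1, ?_, by simp [h]⟩
  exact (Polynomial.monic_X_pow_sub_C (1 : ℚ) hn.ne').ne_zero

theorem alg_exp {q : ℕ} (hq : 0 < q) (c : ℤ) :
    IsAlgebraic ℚ (Complex.exp (Complex.I * Real.pi * ((c : ℂ) / q))) := by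
  have hq0 : (q : ℂ) ≠ 0 := by exact_mod_cast hq.ne'
  refine alg_root (n := 2 * q) (by omega) ?_
  rw [← Complex.exp_nat_mul]
  have h : ((2 * q : ℕ) : ℂ) * (Complex.I * Real.pi * ((c : ℂ) / q)) =
      c * (2 * Real.pi * Complex.I) := by
    push_cast
    field_simp
  rw [h]
  exact Complex.exp_int_mul_two_pi_mul_I c

theorem alg_K {q : ℕ} {z : ℂ} (h : IsAlgebraic ℚ z) : IsAlgebraic (KR q) z :=
  h.extendScalars (FaithfulSMul.algebraMap_injective ℚ (KR q))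

/-- `Γ (c / q) ^ 2 / π` is algebraic over the ratios. -/
theorem gam_alg (q c : ℕ) (h1 : 1 ≤ c) (h2 : c < q) :
    IsAlgebraic (KR q) (Complex.Gamma ((c : ℂ) / q) ^ 2 / Real.pi) := by
  have hq : 0 < q := by omega
  have hq0 : (q : ℂ) ≠ 0 := by exact_mod_cast hq.ne'
  have hqr : (0 : ℝ) < q := by exact_mod_cast hq
  have hcr : (0 : ℝ) < c := by exact_mod_cast h1
  have hcq : (c : ℝ) < q := by exact_mod_cast h2
  have hpos : 0 < (c : ℝ) / q := by positivity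
  have hlt : (c : ℝ) / q < 1 := by rw [div_lt_one hqr]; exact hcq
  have hR : IsAlgebraic (KR q) ((Rr q c : ℝ) : ℂ) := by
    have hm : ((Rr q c : ℝ) : ℂ) ∈ KR q := Algebra.subset_adjoin ⟨⟨c, h1, h2⟩, rfl⟩
    exact isAlgebraic_algebraMap (⟨_, hm⟩ : KR q)
  have hsin : IsAlgebraic (KR q) ((Real.sin (Real.pi * ((c : ℝ) / q)) : ℝ) : ℂ) := by
    have h3 := Real.isAlgebraic_sin_rat_mul_pi ((c : ℚ) / q)
    have h4 : ((((c : ℚ) / q : ℚ) : ℝ) * Real.pi) = Real.pi * ((c : ℝ) / q) := by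
      push_cast; ring
    rw [h4] at h3
    have h5 : IsAlgebraic ℤ ((Real.sin (Real.pi * ((c : ℝ) / q)) : ℝ) : ℂ) := by
      have := h3.algebraMap (A := ℂ)
      simpa using this
    exact alg_K (h5.extendScalars (FaithfulSMul.algebraMap_injective ℤ ℚ))
  have hs0 : Real.sin (Real.pi * ((c : ℝ) / q)) ≠ 0 := by
    have : 0 < Real.sin (Real.pi * ((c : ℝ) / q)) := by
      apply Real.sin_pos_of_pos_of_lt_pi (by positivity)
      calc Real.pi * ((c : ℝ) / q) < Real.pi * 1 := mul_lt_mul_of_pos_left hlt Real.pi_pos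
        _ = Real.pi := mul_one _
    exact this.ne'
  have hrefl := Real.Gamma_mul_Gamma_one_sub ((c : ℝ) / q)
  have hG2 : Real.Gamma (1 - (c : ℝ) / q) ≠ 0 := (Real.Gamma_pos_of_pos (by linarith)).ne'
  have hkey : Real.Gamma ((c : ℝ) / q) ^ 2 / Real.pi
      = Rr q c * (Real.sin (Real.pi * ((c : ℝ) / q)))⁻¹ := by
    unfold Rr
    have hpi := Real.pi_ne_zero
    revert hs0 hrefl hG2
    generalize Real.sin (Real.pi * ((c : ℝ) / q)) = s
    generalize Real.Gamma ((c : ℝ) / q) = G1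
    generalize Real.Gamma (1 - (c : ℝ) / q) = G2
    intro hs0 hrefl hG2
    have h3 : Real.pi = G1 * G2 * s := by
      rw [hrefl]
      field_simp
    rw [div_eq_iff hpi, h3]
    field_simp
  have hc : Complex.Gamma ((c : ℂ) / q) ^ 2 / Real.pi
      = ((Rr q c : ℝ) : ℂ) * ((Real.sin (Real.pi * ((c : ℝ) / q)) : ℝ) : ℂ)⁻¹ := by
    have h3 : Complex.Gamma ((c : ℂ) / q) = ((Real.Gamma ((c : ℝ) / q) : ℝ) : ℂ) := by
      rw [← Complex.Gamma_ofReal]
      congr 1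
      push_cast
      rfl
    rw [h3, ← Complex.ofReal_inv, ← Complex.ofReal_mul, ← hkey]
    push_cast
    rfl
  rw [hc]
  exact hR.mul hsin.inv

/-- The formula for the scale. -/
theorem rho_formula (q a b u : ℕ) (hq : 0 < q) (hA0 : 1 ≤ (u * a) % q) (hB0 : 1 ≤ (u * b) % q)
    (hu3 : q < (u * a) % q + (u * b) % q) :
    rho q a b u = 2 * Real.pi * Complex.I *
      Complex.exp (Complex.I * Real.pi * ((((q : ℤ) - ((u * b) % q : ℕ) : ℤ) : ℂ) / q)) *
      (Complex.Gamma (((u * a) % q : ℕ) / q) * Complex.Gamma (((u * b) % q : ℕ) / q) *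
        (Complex.Gamma (((u * a) % q + (u * b) % q - q : ℕ) / q))⁻¹)⁻¹ := by
  have hq0 : (q : ℂ) ≠ 0 := by exact_mod_cast hq.ne'
  have hA1 := Nat.mod_lt (u * a) hq
  have hB1 := Nat.mod_lt (u * b) hq
  unfold rho al
  set A := (u * a) % q with hA
  set B := (u * b) % q with hB
  have hqr : (0 : ℝ) < q := by exact_mod_cast hq
  have hre : ∀ c : ℕ, 0 < c → 0 < ((c : ℂ) / q).re := by
    intro c hc
    have h3 : ((c : ℂ) / q) = (((c : ℝ) / q : ℝ) : ℂ) := by push_cast; rfl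
    rw [h3, Complex.ofReal_re]
    have : (0 : ℝ) < c := by exact_mod_cast hc
    positivity
  have hcast : (A : ℂ) / q + (B : ℂ) / q - 1 = ((A + B - q : ℕ) : ℂ) / q := by
    rw [Nat.cast_sub hu3.le]
    push_cast
    field_simp
  have hne : ((A + B - q : ℕ) : ℂ) / q ≠ 0 := by
    refine div_ne_zero ?_ hq0
    exact_mod_cast (by omega : A + B - q ≠ 0)
  have hbeta := Complex.Gamma_mul_Gamma_eq_betaIntegral (hre A (by omega)) (hre B (by omega))
  have hadd : Complex.Gamma ((A : ℂ) / q + (B : ℂ) / q) =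
      ((A + B - q : ℕ) : ℂ) / q * Complex.Gamma (((A + B - q : ℕ) : ℂ) / q) := by
    rw [← Complex.Gamma_add_one _ hne, ← hcast]
    congr 1
    ring
  have hGA : Complex.Gamma ((A : ℂ) / q) ≠ 0 := Complex.Gamma_ne_zero_of_re_pos (hre A (by omega))
  have hGB : Complex.Gamma ((B : ℂ) / q) ≠ 0 := Complex.Gamma_ne_zero_of_re_pos (hre B (by omega))
  have hGC : Complex.Gamma (((A + B - q : ℕ) : ℂ) / q) ≠ 0 :=
    Complex.Gamma_ne_zero_of_re_pos (hre _ (by omega))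
  have hkey : Complex.betaIntegral ((A : ℂ) / q) ((B : ℂ) / q) * (((A + B - q : ℕ) : ℂ) / q) =
      Complex.Gamma ((A : ℂ) / q) * Complex.Gamma ((B : ℂ) / q) *
        (Complex.Gamma (((A + B - q : ℕ) : ℂ) / q))⁻¹ := by
    rw [hbeta, hadd]
    field_simp
  push_cast at hcast hkey ⊢
  rw [hcast, hkey, div_eq_mul_inv]
  congr 3
  field_simp
  ring

/-- The scale of a place of a Fermat type: `rho ^ 2 / π` is algebraic over the ratios. -/
theorem rho_sq_alg (q a b u : ℕ) (hq : 0 < q) (hA0 : 1 ≤ (u * a) % q) (hB0 : 1 ≤ (u * b) % q)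
    (hu3 : q < (u * a) % q + (u * b) % q) :
    IsAlgebraic (KR q) (rho q a b u ^ 2 / Real.pi) := by
  have hA1 := Nat.mod_lt (u * a) hq
  have hB1 := Nat.mod_lt (u * b) hq
  rw [rho_formula q a b u hq hA0 hB0 hu3]
  have h1 := gam_alg q _ hA0 hA1
  have h2 := gam_alg q _ hB0 hB1
  have h3 := gam_alg q ((u * a) % q + (u * b) % q - q) (by omega) (by omega)
  have hE := alg_K (q := q) (alg_exp hq ((q : ℤ) - ((u * b) % q : ℕ)))
  have hn : IsAlgebraic (KR q) (-4 : ℂ) := alg_K (by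
    have := isAlgebraic_algebraMap (R := ℚ) (A := ℂ) (-4 : ℚ)
    simpa using this)
  have hpi : (Real.pi : ℂ) ≠ 0 := by exact_mod_cast Real.pi_ne_zero
  revert h1 h2 h3 hE
  generalize Complex.Gamma (((u * a) % q : ℕ) / q) = G1
  generalize Complex.Gamma (((u * b) % q : ℕ) / q) = G2
  generalize Complex.Gamma (((u * a) % q + (u * b) % q - q : ℕ) / q) = G3
  generalize Complex.exp (Complex.I * Real.pi * ((((q : ℤ) - ((u * b) % q : ℕ) : ℤ) : ℂ) / q)) = E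
  intro h1 h2 h3 hE
  have hfin : (2 * Real.pi * Complex.I * E * (G1 * G2 * G3⁻¹)⁻¹) ^ 2 / Real.pi
      = -4 * (E * E) * (G3 ^ 2 / Real.pi) * ((G1 ^ 2 / Real.pi) * (G2 ^ 2 / Real.pi))⁻¹ := by
    have hI : Complex.I ^ 2 = -1 := Complex.I_sq
    rw [mul_inv, mul_inv, inv_inv, mul_inv, div_eq_mul_inv, div_eq_mul_inv, div_eq_mul_inv,
      div_eq_mul_inv, mul_inv, mul_inv, inv_inv]
    have e : (2 * (Real.pi : ℂ) * Complex.I * E * (G1⁻¹ * G2⁻¹ * G3)) ^ 2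
        = -4 * (E * E) * (Real.pi : ℂ) ^ 2 * ((G1 ^ 2)⁻¹ * (G2 ^ 2)⁻¹ * G3 ^ 2) := by
      have : (2 * (Real.pi : ℂ) * Complex.I * E * (G1⁻¹ * G2⁻¹ * G3)) ^ 2
        = 4 * Complex.I ^ 2 * (E * E) * (Real.pi : ℂ) ^ 2 * ((G1⁻¹) ^ 2 * (G2⁻¹) ^ 2 * G3 ^ 2) := by
        ring
      rw [this, hI, inv_pow, inv_pow]
      ring
    rw [e]
    have h5 : (Real.pi : ℂ)⁻¹ * Real.pi = 1 := inv_mul_cancel₀ hpi
    have h6 : (Real.pi : ℂ) ^ 2 * (Real.pi : ℂ)⁻¹ = (Real.pi : ℂ)⁻¹ * Real.pi * Real.pi := by ring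
    calc _ = -4 * (E * E) * ((Real.pi : ℂ) ^ 2 * (Real.pi : ℂ)⁻¹)
          * ((G1 ^ 2)⁻¹ * (G2 ^ 2)⁻¹ * G3 ^ 2) := by ring
      _ = -4 * (E * E) * (((Real.pi : ℂ)⁻¹ * Real.pi) * Real.pi)
          * ((G1 ^ 2)⁻¹ * (G2 ^ 2)⁻¹ * G3 ^ 2) := by rw [h6]
      _ = _ := by ring
  rw [hfin]
  exact ((hn.mul (hE.mul hE)).mul h3).mul (h1.mul h2).inv

theorem rho_ne' (q a b u : ℕ) (hq : 0 < q) (hA0 : 1 ≤ (u * a) % q) (hB0 : 1 ≤ (u * b) % q)
    (hu3 : q < (u * a) % q + (u * b) % q) : rho q a b u ≠ 0 := by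
  rw [rho_formula q a b u hq hA0 hB0 hu3]
  have hqr : (0 : ℝ) < q := by exact_mod_cast hq
  have hpi : (Real.pi : ℂ) ≠ 0 := by exact_mod_cast Real.pi_ne_zero
  have hre : ∀ c : ℕ, 0 < c → Complex.Gamma ((c : ℂ) / q) ≠ 0 := by
    intro c hc
    apply Complex.Gamma_ne_zero_of_re_pos
    have h3 : ((c : ℂ) / q) = (((c : ℝ) / q : ℝ) : ℂ) := by push_cast; rfl
    rw [h3, Complex.ofReal_re]
    have : (0 : ℝ) < c := by exact_mod_cast hc
    positivity
  have h1 := hre ((u * a) % q) (by omega)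
  have h2 := hre ((u * b) % q) (by omega)
  have h3 := hre ((u * a) % q + (u * b) % q - q) (by omega)
  refine mul_ne_zero (mul_ne_zero (mul_ne_zero (mul_ne_zero two_ne_zero hpi) Complex.I_ne_zero)
    (Complex.exp_ne_zero _)) (inv_ne_zero (mul_ne_zero (mul_ne_zero h1 h2) (inv_ne_zero h3)))

/-- Two numbers whose squares divided by `π` are algebraic over the ratios: quotient. -/
theorem quot_alg {q : ℕ} {x y : ℂ} (hx : IsAlgebraic (KR q) (x ^ 2 / Real.pi))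
    (hy : IsAlgebraic (KR q) (y ^ 2 / Real.pi)) : IsAlgebraic (KR q) (x / y) := by
  have hpi : (Real.pi : ℂ) ≠ 0 := by exact_mod_cast Real.pi_ne_zero
  apply IsAlgebraic.of_pow (n := 2) two_pos
  have h : (x / y) ^ 2 = (x ^ 2 / Real.pi) * (y ^ 2 / Real.pi)⁻¹ := by
    rw [div_pow, inv_div, div_mul_div_comm, mul_comm (Real.pi : ℂ), mul_div_mul_right _ _ hpi]
  rw [h]
  exact hx.mul hy.inv

/-- Two numbers whose squares divided by `π` are algebraic over the ratios: `2 π i / (x y)`. -/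
theorem pair_alg {q : ℕ} {x y : ℂ} (hx : IsAlgebraic (KR q) (x ^ 2 / Real.pi))
    (hy : IsAlgebraic (KR q) (y ^ 2 / Real.pi)) :
    IsAlgebraic (KR q) (2 * Real.pi * Complex.I / (x * y)) := by
  have hpi : (Real.pi : ℂ) ≠ 0 := by exact_mod_cast Real.pi_ne_zero
  apply IsAlgebraic.of_pow (n := 2) two_pos
  have hn : IsAlgebraic (KR q) (-4 : ℂ) := alg_K (by
    have := isAlgebraic_algebraMap (R := ℚ) (A := ℂ) (-4 : ℚ)
    simpa using this)
  have h : (2 * Real.pi * Complex.I / (x * y)) ^ 2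
      = -4 * ((x ^ 2 / Real.pi)⁻¹ * (y ^ 2 / Real.pi)⁻¹) := by
    have hI : Complex.I ^ 2 = -1 := Complex.I_sq
    rw [div_pow, inv_div, inv_div, mul_pow, mul_pow, hI, mul_pow, div_mul_div_comm]
    ring
  rw [h]
  exact hn.mul (hx.inv.mul hy.inv)

end Pool.Agent.Helper24.LU
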