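import Pool.Agent.Helper34.LU.Df
import Pool.Agent.Helper24.LU.Ra

/-!
# Project LT2 (MP_274814_nt), block T: normalisation of the slopes

All slopes divided by the square root of `π` are algebraic over the ratios.
-/

set_option autoImplicit false

namespace Pool.Agent.Helper24.LU

open Finset Pool.Agent.Helper34.LT LTG Pool.Agent.Helper34.LU
open Pool.Agent.Helper44.LT (PU)

theorem zt_alg {q : ℕ} (hq : 0 < q) : IsAlgebraic ℚ (zt q) := by
  refine alg_root hq ?_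
  have hq0 : (q : ℂ) ≠ 0 := by exact_mod_cast hq.ne'
  rw [zt, ← Complex.exp_nat_mul, mul_div_cancel₀ _ hq0, Complex.exp_two_pi_mul_I]

theorem aeval_int_alg {K : Type*} [Field K] [Algebra ℚ K] {z : K} (hz : IsAlgebraic ℚ z)
    (P : Polynomial ℤ) : IsAlgebraic ℚ (Polynomial.aeval z P) := by
  induction P using Polynomial.induction_on' with
  | add P Q h1 h2 => rw [map_add]; exact h1.add h2
  | monomial n a =>
    rw [Polynomial.aeval_monomial]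
    refine IsAlgebraic.mul ?_ (hz.pow n)
    have := isAlgebraic_algebraMap (R := ℚ) (A := K) (a : ℚ)
    simpa using this

theorem rhU_sq_alg {q a b u : ℕ} (hq : 0 < q) (hu : u ∈ PU q a b) :
    IsAlgebraic (KR q) (rhU q a b u ^ 2 / Real.pi) := by
  simp only [PU, mem_filter] at hu
  obtain ⟨⟨-, h1⟩, -⟩ := hu
  have hA1 := Nat.mod_lt (u * a) hq
  have hB1 := Nat.mod_lt (u * b) hq
  have h2 := rho_sq_alg q a b u hq (by omega) (by omega) h1
  have h3 : IsAlgebraic (KR q) (Polynomial.aeval (zt q ^ u) (psq q)) :=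
    alg_K (aeval_int_alg ((zt_alg hq).pow u) _)
  have h4 : rhU q a b u ^ 2 / Real.pi = rho q a b u ^ 2 / Real.pi *
      Polynomial.aeval (zt q ^ u) (psq q) ^ 2 := by
    unfold rhU
    ring
  rw [h4]
  exact h2.mul (h3.pow 2)

theorem kap_sq_alg {q : ℕ} {x k : ℂ} (hx : x ≠ 0) (h1 : IsAlgebraic (KR q) (x ^ 2 / Real.pi))
    (h2 : IsAlgebraic ℚ (k * x / (2 * Real.pi * Complex.I))) :
    IsAlgebraic (KR q) (k ^ 2 / Real.pi) := by
  have hpi : (Real.pi : ℂ) ≠ 0 := by exact_mod_cast Real.pi_ne_zero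
  have hn : IsAlgebraic (KR q) (-4 : ℂ) := alg_K (by
    have := isAlgebraic_algebraMap (R := ℚ) (A := ℂ) (-4 : ℚ)
    simpa using this)
  have h3 : k ^ 2 / Real.pi =
      -4 * (k * x / (2 * Real.pi * Complex.I)) ^ 2 * (x ^ 2 / Real.pi)⁻¹ := by
    rw [div_pow, mul_pow, mul_pow, mul_pow, Complex.I_sq]
    field_simp
    ring
  rw [h3]
  exact (hn.mul ((alg_K h2).pow 2)).mul h1.inv

theorem IsTh_sq_alg {q a b : ℕ} {κ : PU q a b → ℂ} {c : Polynomial ℤ → ℂ}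
    {f : (PU q a b → ℂ) → ℂ} (h : IsTh q (PU q a b) (rhU q a b) κ c f) (u : PU q a b) :
    IsAlgebraic (KR q) (κ u ^ 2 / Real.pi) := by
  have hq : 0 < q := by have := h.half.three; omega
  exact kap_sq_alg (h.rho u u.2) (rhU_sq_alg hq u.2) (h.alg u)

theorem tru_sq_alg {q a b a' b' : ℕ}
    {κ1 : PU q a b → ℂ} {κ2 : PU q a' b' → ℂ} {c1 c2 : Polynomial ℤ → ℂ}
    {f : (PU q a b → ℂ) → ℂ} {g : (PU q a' b' → ℂ) → ℂ}
    (h1 : IsTh q (PU q a b) (rhU q a b) κ1 c1 f)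
    (h2 : IsTh q (PU q a' b') (rhU q a' b') κ2 c2 g) (i : II (PU q a b) (PU q a' b')) :
    IsAlgebraic (KR q) (tru (rhU q a b) (rhU q a' b') κ1 κ2 i ^ 2 / Real.pi) := by
  have hq : 0 < q := by have := h1.half.three; omega
  rcases i with (u | v) | (u | v)
  · exact rhU_sq_alg hq u.2
  · exact rhU_sq_alg hq v.2
  · exact IsTh_sq_alg h1 u
  · exact IsTh_sq_alg h2 v

theorem T_scale (q a b a' b' : ℕ) (_h3 : 3 ≤ q) (_ha : ¬ q ∣ a) (_hb : ¬ q ∣ b)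
    (_hab : Nat.Coprime (a + b) q) (_ha' : ¬ q ∣ a') (_hb' : ¬ q ∣ b')
    (_hab' : Nat.Coprime (a' + b') q)
    (κ1 : PU q a b → ℂ) (κ2 : PU q a' b' → ℂ) (c1 c2 : Polynomial ℤ → ℂ)
    (f : (PU q a b → ℂ) → ℂ) (g : (PU q a' b' → ℂ) → ℂ)
    (h1 : IsTh q (PU q a b) (rhU q a b) κ1 c1 f)
    (h2 : IsTh q (PU q a' b') (rhU q a' b') κ2 c2 g) :
    ∃ σ : UU q → ℂ, (∀ w, σ w ≠ 0) ∧ (∀ w, ‖σ w‖ ≤ 1) ∧
      ∀ i : II (PU q a b) (PU q a' b'), IsAlgebraic (KR q)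
        (tru (rhU q a b) (rhU q a' b') κ1 κ2 i * σ (pj h1.half h2.half i)) := by
  have hs : (1 : ℝ) ≤ Real.sqrt Real.pi := by
    rw [Real.one_le_sqrt]
    linarith [Real.pi_gt_three]
  have hs0 : ((Real.sqrt Real.pi : ℝ) : ℂ) ≠ 0 := by
    exact_mod_cast (by linarith : Real.sqrt Real.pi ≠ 0)
  refine ⟨fun _ => ((Real.sqrt Real.pi : ℝ) : ℂ)⁻¹, fun _ => inv_ne_zero hs0, fun _ => ?_,
    fun i => ?_⟩
  · rw [norm_inv, Complex.norm_real, Real.norm_of_nonneg (by linarith)]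
    exact inv_le_one_of_one_le₀ hs
  · apply IsAlgebraic.of_pow (n := 2) two_pos
    have h : (tru (rhU q a b) (rhU q a' b') κ1 κ2 i * ((Real.sqrt Real.pi : ℝ) : ℂ)⁻¹) ^ 2 =
        tru (rhU q a b) (rhU q a' b') κ1 κ2 i ^ 2 / Real.pi := by
      rw [mul_pow, inv_pow, ← Complex.ofReal_pow, Real.sq_sqrt Real.pi_pos.le, div_eq_mul_inv]
    rw [h]
    exact tru_sq_alg h1 h2 i

end Pool.Agent.Helper24.LU
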