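import Pool.Agent.Helper24.LU.Fi

/-!
# Project LT2 (MP_274814_nt), block T: numbers of independent ratios, change of level
-/

set_option autoImplicit false

namespace Pool.Agent.Helper24.LU

open Set

/-- `n` of the ratios `Γ (a / q) / Γ (1 - a / q)`, `1 ≤ a < q`, are algebraically independent. -/
def HasInd (q n : ℕ) : Prop :=
  ∃ f : Fin n → {a : ℕ // 1 ≤ a ∧ a < q}, AlgebraicIndependent ℚ (fun k => Rr q (f k))

theorem HasInd.mono {q m n : ℕ} (hmn : m ≤ n) (h : HasInd q n) : HasInd q m := by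
  obtain ⟨f, hf⟩ := h
  exact ⟨fun k => f (Fin.castLE hmn k), hf.comp _ (Fin.castLE_injective hmn)⟩

theorem Rr_level (d e a : ℕ) (he : 0 < e) : Rr (d * e) (a * e) = Rr d a := by
  unfold Rr
  have he' : (e : ℝ) ≠ 0 := by exact_mod_cast he.ne'
  have h1 : ((a * e : ℕ) : ℝ) / ((d * e : ℕ) : ℝ) = (a : ℝ) / d := by
    push_cast
    rw [mul_div_mul_right _ _ he']
  rw [h1]

theorem HasInd.level {d q n : ℕ} (hq : 0 < q) (hd : d ∣ q) (h : HasInd d n) : HasInd q n := by
  obtain ⟨e, rfl⟩ := hd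
  have he : 0 < e := Nat.pos_of_mul_pos_left hq |> fun h => by
    rcases Nat.eq_zero_or_pos e with h0 | h0
    · subst h0; omega
    · exact h0
  obtain ⟨f, hf⟩ := h
  refine ⟨fun k => ⟨(f k).1 * e, ?_, ?_⟩, ?_⟩
  · exact Nat.mul_pos (f k).2.1 he
  · exact Nat.mul_lt_mul_of_pos_right (f k).2.2 he
  · have h1 : (fun k => Rr (d * e) ((f k).1 * e)) = fun k => Rr d (f k) := by
      funext k
      exact Rr_level d e _ he
    exact h1 ▸ hf

theorem HasInd.of_complex {q n : ℕ} (f : Fin n → {a : ℕ // 1 ≤ a ∧ a < q})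
    (hf : AlgebraicIndependent ℚ (fun k => ((Rr q (f k) : ℝ) : ℂ))) : HasInd q n :=
  ⟨f, real_iff.1 hf⟩

/-- From independent elements algebraic over the ratios. -/
theorem HasInd.of_alg {q n : ℕ} {J : Type*} (s : J → ℂ) (halg : ∀ j, IsAlgebraic (KR q) (s j))
    (f : Fin n → J) (hf : AlgebraicIndependent ℚ (fun k => s (f k))) : HasInd q n := by
  rcases n with _ | n
  · refine ⟨Fin.elim0, ?_⟩
    have : IsEmpty (Fin 0) := inferInstance
    exact algebraicIndependent_empty_type_iff.2 (algebraMap ℚ ℝ).injective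
  · obtain ⟨g, hg⟩ := transfer (fun a : {a : ℕ // 1 ≤ a ∧ a < q} => ((Rr q a : ℝ) : ℂ)) s n halg f hf
    exact HasInd.of_complex g hg

/-- The full number of independent ratios at a good level. -/
theorem HasInd.prim {q : ℕ} (hq : 2 < q)
    (hpow : ∀ p : ℕ, p.Prime → p ∣ q → ∃ k : ℕ, (p : ZMod (q / p ^ q.factorization p)) ^ k = -1)
    (h : HasInd q (Nat.totient q / 2)) : AlgebraicIndependent ℚ (fun a : Pidx q => Rr q a) := by
  obtain ⟨f, hf⟩ := h
  exact prim_indep q hq hpow f (real_iff.2 hf)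


/-- The ratios are algebraic over a field that contains `π` and the Gamma values. -/
theorem Rr_alg_of_mem (K : IntermediateField ℚ ℂ) (q a : ℕ) (h1 : 1 ≤ a) (h2 : a < q)
    (hpi : (Real.pi : ℂ) ∈ K) (hG : Complex.Gamma ((a : ℂ) / q) ∈ K) :
    IsAlgebraic K ((Rr q a : ℝ) : ℂ) := by
  have hqr : (0 : ℝ) < q := by exact_mod_cast (by omega : 0 < q)
  have hcr : (0 : ℝ) < a := by exact_mod_cast h1
  have hcq : (a : ℝ) < q := by exact_mod_cast h2
  have hlt : (a : ℝ) / q < 1 := by rw [div_lt_one hqr]; exact hcq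
  have hsin : IsAlgebraic ℚ (Real.sin (Real.pi * ((a : ℝ) / q))) := by
    have h3 := Real.isAlgebraic_sin_rat_mul_pi ((a : ℚ) / q)
    have h4 : ((((a : ℚ) / q : ℚ) : ℝ) * Real.pi) = Real.pi * ((a : ℝ) / q) := by
      push_cast; ring
    rw [h4] at h3
    exact h3.extendScalars (FaithfulSMul.algebraMap_injective ℤ ℚ)
  have hs0 : Real.sin (Real.pi * ((a : ℝ) / q)) ≠ 0 := by
    have : 0 < Real.sin (Real.pi * ((a : ℝ) / q)) := by
      apply Real.sin_pos_of_pos_of_lt_pi (by positivity)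
      calc Real.pi * ((a : ℝ) / q) < Real.pi * 1 := mul_lt_mul_of_pos_left hlt Real.pi_pos
        _ = Real.pi := mul_one _
    exact this.ne'
  have hrefl := Real.Gamma_mul_Gamma_one_sub ((a : ℝ) / q)
  have hG2 : Real.Gamma (1 - (a : ℝ) / q) ≠ 0 := (Real.Gamma_pos_of_pos (by linarith)).ne'
  have hkey : Rr q a = Real.Gamma ((a : ℝ) / q) ^ 2 * Real.sin (Real.pi * ((a : ℝ) / q))
      * Real.pi⁻¹ := by
    unfold Rr
    have hpi := Real.pi_ne_zero
    revert hs0 hrefl hG2
    generalize Real.sin (Real.pi * ((a : ℝ) / q)) = s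
    generalize Real.Gamma ((a : ℝ) / q) = G1
    generalize Real.Gamma (1 - (a : ℝ) / q) = G2
    intro hs0 hrefl hG2
    have h3 : Real.pi = G1 * G2 * s := by
      rw [hrefl]
      field_simp
    have hG1 : G1 ≠ 0 := by
      rintro rfl
      rw [zero_mul, zero_mul] at h3
      exact hpi h3
    rw [h3]
    field_simp
  have hGr : ((Real.Gamma ((a : ℝ) / q) : ℝ) : ℂ) = Complex.Gamma ((a : ℂ) / q) := by
    rw [← Complex.Gamma_ofReal]; push_cast; rfl
  rw [hkey]
  push_cast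
  rw [← Complex.ofReal_pow] at *
  have e1 : IsAlgebraic K ((Real.Gamma ((a : ℝ) / q) : ℝ) : ℂ) := by
    rw [hGr]; exact Pool.Agent.Helper24.GammaTr.isAlg_of_mem K hG
  have e2 : IsAlgebraic K ((Real.sin (Real.pi * ((a : ℝ) / q)) : ℝ) : ℂ) :=
    Pool.Agent.Helper24.GammaTr.isAlg_of_alg K hsin
  have e3 : IsAlgebraic K ((Real.pi : ℝ) : ℂ) := Pool.Agent.Helper24.GammaTr.isAlg_of_mem K hpi
  have h9 := ((e1.pow 2).mul e2).mul e3.inv
  push_cast at h9 ⊢
  exact h9

/-- Independent ratios bound the transcendence degree from below. -/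
theorem HasInd.trdeg_le {q n : ℕ} (h : HasInd q n) (F : IntermediateField ℚ ℂ)
    (hF : ∀ a, 1 ≤ a → a < q → IsAlgebraic F ((Rr q a : ℝ) : ℂ)) :
    (n : Cardinal) ≤ Algebra.trdeg ℚ F := by
  obtain ⟨f, hf⟩ := h
  have hfc := real_iff.2 hf
  set L := IntermediateField.adjoin ℚ
    (Set.range fun a : {a : ℕ // 1 ≤ a ∧ a < q} => ((Rr q a : ℝ) : ℂ)) with hL
  have h1 : Algebra.trdeg ℚ L ≤ Algebra.trdeg ℚ F := by
    apply Pool.Agent.Helper24.GammaFull.trdeg_le_of_alg2
    have hle : L ≤ (algebraicClosure F ℂ).restrictScalars ℚ := by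
      rw [hL, IntermediateField.adjoin_le_iff]
      rintro z ⟨a, rfl⟩
      change _ ∈ IntermediateField.restrictScalars ℚ _
      rw [IntermediateField.mem_restrictScalars, mem_algebraicClosure_iff]
      exact hF a a.2.1 a.2.2
    intro z hz
    have := hle hz
    rwa [IntermediateField.mem_restrictScalars, mem_algebraicClosure_iff] at this
  refine le_trans ?_ h1
  set x : Fin n → L := fun k => ⟨((Rr q (f k) : ℝ) : ℂ),
    IntermediateField.subset_adjoin ℚ _ ⟨f k, rfl⟩⟩ with hx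
  have hxi : AlgebraicIndependent ℚ x :=
    (AlgHom.algebraicIndependent_iff L.val L.val.injective).1 hfc
  have h2 := hxi.lift_cardinalMk_le_trdeg
  simpa using h2

end Pool.Agent.Helper24.LU
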