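import Pool.Agent.Helper24.GammaFull
import Pool.Agent.Helper24.LU.Ra

/-!
# Project LT2 (MP_274814_nt), block T: the ratios form an odd distribution
-/

set_option autoImplicit false

namespace Pool.Agent.Helper24.LU

open Real Pool.Agent.Helper24.GammaDist Pool.Agent.Helper24.GammaTr Pool.Agent.Helper24.GammaMul
open Pool.Agent.Helper24.GammaFull

/-- The logarithm of the ratio. -/
noncomputable def lr (x : ℝ) : ℝ := log (Gamma x) - log (Gamma (1 - x))

/-- The class of the ratio modulo the numbers algebraic over `K`. -/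
noncomputable def H (K : IntermediateField ℚ ℂ) (x : ℚ) : ℝ ⧸ CC K :=
  if Int.fract x = 0 then 0 else Submodule.Quotient.mk (lr ((Int.fract x : ℚ) : ℝ))

theorem H_per (K : IntermediateField ℚ ℂ) (x : ℚ) : H K (x + 1) = H K x := by
  unfold H
  rw [Int.fract_add_one]

theorem lr_one_sub (x : ℝ) : lr (1 - x) = - lr x := by
  unfold lr
  rw [sub_sub_cancel]
  ring

theorem H_odd (K : IntermediateField ℚ ℂ) (x : ℚ) : H K (-x) = - H K x := by
  unfold H
  by_cases h0 : Int.fract x = 0
  · rw [if_pos h0, if_pos (Int.fract_neg_eq_zero.mpr h0), neg_zero]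
  · rw [if_neg h0, if_neg (fun h => h0 (Int.fract_neg_eq_zero.mp h)), Int.fract_neg h0]
    push_cast
    rw [lr_one_sub]
    exact Submodule.Quotient.mk_neg (CC K)

theorem shift_sum {M : Type*} [AddCommGroup M] (f : ℚ → M) (hf : ∀ x, f (x + 1) = f x) (N : ℕ)
    (hN : 0 < N) (x : ℚ) :
    ∑ k ∈ Finset.range N, f ((x + 1 + k) / N) = ∑ k ∈ Finset.range N, f ((x + k) / N) := by
  have hN' : (0 : ℚ) < N := Nat.cast_pos.mpr hN
  have e1 : ∑ k ∈ Finset.range N, f ((x + 1 + k) / N) + f (x / N) =
      ∑ k ∈ Finset.range (N + 1), f ((x + k) / N) := by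
    rw [Finset.sum_range_succ']
    simp only [Nat.cast_add, Nat.cast_one, Nat.cast_zero, add_zero]
    congr 1
    refine Finset.sum_congr rfl fun k _ => ?_
    congr 2
    ring
  rw [Finset.sum_range_succ] at e1
  have e2 : f ((x + N) / N) = f (x / N) := by
    rw [add_div, div_self hN'.ne', hf]
  rw [e2] at e1
  exact add_right_cancel e1

theorem shift_int {M : Type*} (g : ℚ → M) (hg : ∀ x, g (x + 1) = g x) (x : ℚ) :
    g (Int.fract x) = g x := by
  have h1 : ∀ (n : ℕ) (y : ℚ), g (y + n) = g y := by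
    intro n
    induction n with
    | zero => intro y; simp
    | succ n ih =>
      intro y
      rw [← ih y, ← hg (y + n)]
      congr 1
      push_cast
      ring
  have h2 : ∀ (n : ℤ) (y : ℚ), g (y + n) = g y := by
    intro n y
    rcases Int.eq_nat_or_neg n with ⟨m, hm | hm⟩
    · rw [hm]; exact_mod_cast h1 m y
    · rw [hm, ← h1 m (y + ((-(m : ℤ) : ℤ) : ℚ))]
      congr 1
      push_cast
      ring
  have h3 := h2 (-⌊x⌋) x
  rw [← h3]
  congr 1
  rw [Int.fract]
  push_cast
  ring

theorem two_tor (K : IntermediateField ℚ ℂ) (x : ℝ ⧸ CC K) (hx : x + x = 0) : x = 0 := by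
  rw [← two_smul ℚ x] at hx
  exact (smul_eq_zero.mp hx).resolve_left (by norm_num)

theorem H_mul (K : IntermediateField ℚ ℂ) (N : ℕ) (hN : 0 < N) (x : ℚ) :
    ∑ k ∈ Finset.range N, H K ((x + k) / N) = H K x := by
  have hN' : (0 : ℝ) < N := Nat.cast_pos.mpr hN
  have hNq : (0 : ℚ) < N := Nat.cast_pos.mpr hN
  have key : ∀ t : ℚ, 0 ≤ t → t < 1 →
      ∑ k ∈ Finset.range N, H K ((t + k) / N) = H K t := by
    intro t ht0 ht1
    rcases eq_or_lt_of_le ht0 with h0 | h0
    · subst h0
      have e0 : H K 0 = 0 := by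
        unfold H
        rw [if_pos (Int.fract_zero)]
      rw [e0]
      apply two_tor
      have e1 : ∑ k ∈ Finset.range N, H K ((0 + k) / N)
          = - ∑ k ∈ Finset.range N, H K ((0 + 1 + k) / N) := by
        rw [← Finset.sum_range_reflect, ← Finset.sum_neg_distrib]
        refine Finset.sum_congr rfl fun k hk => ?_
        rw [Finset.mem_range] at hk
        rw [← H_odd, ← H_per K (-((0 + 1 + (k : ℚ)) / N))]
        congr 1
        rw [Nat.cast_sub (by omega), Nat.cast_sub (by omega)]
        field_simp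
        push_cast
        ring
      rw [shift_sum (H K) (H_per K) N hN 0] at e1
      nth_rewrite 1 [e1]
      exact neg_add_cancel _
    · have hfr : Int.fract t = t := Int.fract_eq_self.mpr ⟨ht0, ht1⟩
      have hHt : H K t = Submodule.Quotient.mk (lr (t : ℝ)) := by
        unfold H
        rw [hfr, if_neg h0.ne']
      have hterm : ∀ k ∈ Finset.range N, H K ((t + k) / N)
          = Submodule.Quotient.mk (lr (((t : ℝ) + k) / N)) := by
        intro k hk
        rw [Finset.mem_range] at hk
        have h1 : (0 : ℚ) < (t + k) / N := by positivity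
        have h2 : (t + k) / N < (1 : ℚ) := by
          rw [div_lt_one hNq]
          have : (k : ℚ) + 1 ≤ N := by exact_mod_cast hk
          linarith
        have h3 : Int.fract ((t + k) / N) = (t + k) / N := Int.fract_eq_self.mpr ⟨h1.le, h2⟩
        unfold H
        rw [h3, if_neg h1.ne']
        push_cast
        rfl
      have htr0 : (0 : ℝ) < t := by exact_mod_cast h0
      have htr1 : (t : ℝ) < 1 := by exact_mod_cast ht1
      have htr1' : (0 : ℝ) < 1 - t := by linarith
      rw [Finset.sum_congr rfl hterm, hHt]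
      have hsum : ∑ k ∈ Finset.range N, lr (((t : ℝ) + k) / N)
          = log (gprod N t) - log (gprod N (1 - t)) := by
        unfold lr gprod
        rw [Finset.sum_sub_distrib, log_prod (fun k _ => (Gamma_pos_of_pos (by positivity)).ne'),
          log_prod (fun k _ => (Gamma_pos_of_pos (by positivity)).ne')]
        congr 1
        rw [← Finset.sum_range_reflect]
        refine Finset.sum_congr rfl fun k hk => ?_
        rw [Finset.mem_range] at hk
        congr 2
        rw [Nat.cast_sub (by omega), Nat.cast_sub (by omega)]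
        field_simp
        push_cast
        ring
      have hg1 := gprod_pos hN one_pos
      have hlog : ∀ y : ℝ, 0 < y → log (gprod N y)
          = log N + log (gprod N 1) + -y * log N + log (Gamma y) := by
        intro y hy
        rw [gprod_eq hN hy, log_mul (by positivity) (Gamma_pos_of_pos hy).ne',
          log_mul (by positivity) (rpow_pos_of_pos hN' _).ne', log_mul hN'.ne' hg1.ne',
          log_rpow hN']
      have hdiff : ∑ k ∈ Finset.range N, lr (((t : ℝ) + k) / N)
          = lr t + ((1 - 2 * t : ℚ) : ℝ) * log N := by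
        rw [hsum, hlog _ htr0, hlog _ htr1']
        unfold lr
        push_cast
        ring
      have hmk : ∑ k ∈ Finset.range N, (Submodule.Quotient.mk (lr (((t : ℝ) + k) / N)) : ℝ ⧸ CC K)
          = Submodule.Quotient.mk (∑ k ∈ Finset.range N, lr (((t : ℝ) + k) / N)) :=
        (map_sum (Submodule.mkQ (CC K)) _ _).symm
      rw [hmk, hdiff, Submodule.Quotient.mk_add]
      have hz : (Submodule.Quotient.mk (((1 - 2 * t : ℚ) : ℝ) * log N) : ℝ ⧸ CC K) = 0 := by
        rw [Submodule.Quotient.mk_eq_zero]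
        have h5 : ((1 - 2 * t : ℚ) : ℝ) * log N = (1 - 2 * t : ℚ) • log (N : ℝ) := by
          rw [Rat.smul_def]
        rw [h5]
        apply Submodule.smul_mem
        change IsAlgebraic K ((Real.exp (log (N : ℝ)) : ℝ) : ℂ)
        rw [Real.exp_log hN']
        exact isAlg_of_alg K (isAlgebraic_natCast N)
      rw [hz, add_zero]
  rw [← shift_int (H K) (H_per K) x, ← shift_int (fun y => ∑ k ∈ Finset.range N, H K ((y + k) / N))
    (fun y => shift_sum (H K) (H_per K) N hN y) x]
  exact key _ (Int.fract_nonneg x) (Int.fract_lt_one x)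

theorem H_dist (K : IntermediateField ℚ ℂ) : IsOddDist (H K) := ⟨H_per K, H_odd K, H_mul K⟩

theorem H_zero_iff (K : IntermediateField ℚ ℂ) (a q : ℕ) (h1 : 1 ≤ a) (h2 : a < q) :
    H K ((a : ℚ) / q) = 0 ↔ IsAlgebraic K ((Rr q a : ℝ) : ℂ) := by
  have hq : (0 : ℚ) < q := by exact_mod_cast (by omega : 0 < q)
  have hqr : (0 : ℝ) < q := by exact_mod_cast (by omega : 0 < q)
  have ha : (0 : ℚ) < a := by exact_mod_cast h1
  have har : (0 : ℝ) < a := by exact_mod_cast h1
  have h3 : (0 : ℚ) < (a : ℚ) / q := by positivity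
  have h4 : (a : ℚ) / q < 1 := by rw [div_lt_one hq]; exact_mod_cast h2
  have h4r : (a : ℝ) / q < 1 := by rw [div_lt_one hqr]; exact_mod_cast h2
  have h5 : Int.fract ((a : ℚ) / q) = (a : ℚ) / q := Int.fract_eq_self.mpr ⟨h3.le, h4⟩
  unfold H
  rw [h5, if_neg h3.ne', Submodule.Quotient.mk_eq_zero]
  change IsAlgebraic K ((Real.exp (lr (((a : ℚ) / q : ℚ) : ℝ)) : ℝ) : ℂ) ↔ _
  have h6 : Real.exp (lr (((a : ℚ) / q : ℚ) : ℝ)) = Rr q a := by
    unfold lr Rr
    push_cast
    rw [Real.exp_sub, Real.exp_log (Gamma_pos_of_pos (by positivity)),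
      Real.exp_log (Gamma_pos_of_pos (by linarith))]
  rw [h6]

/-- For good levels the primitive ratios generate all the ratios up to algebraic extension. -/
theorem ratio_all (q : ℕ) (hq : 2 < q)
    (hpow : ∀ p : ℕ, p.Prime → p ∣ q → ∃ k : ℕ, (p : ZMod (q / p ^ q.factorization p)) ^ k = -1)
    (K : IntermediateField ℚ ℂ)
    (hK : ∀ c : ℕ, 1 ≤ c → c < q → c.Coprime q → IsAlgebraic K ((Rr q c : ℝ) : ℂ))
    (a : ℕ) (ha1 : 1 ≤ a) (ha2 : a < q) : IsAlgebraic K ((Rr q a : ℝ) : ℂ) := by
  have hq0 : 0 < q := by omega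
  have hf := H_dist K
  have h0 : ∀ c : ℕ, c.Coprime q → H K ((c : ℚ) / q) = 0 := by
    intro c hc
    have e1 : H K ((c : ℚ) / q) = H K (((c % q : ℕ) : ℚ) / q) :=
      per_mod hf hq0 (Nat.mod_modEq c q).symm
    rw [e1]
    have hc2 : (c % q).Coprime q := by
      rw [Nat.Coprime, ← Nat.gcd_rec, Nat.gcd_comm]; exact hc
    have hlt := Nat.mod_lt c hq0
    have hpos : 0 < c % q := by
      rcases Nat.eq_zero_or_pos (c % q) with h | h
      · rw [h, Nat.coprime_zero_left] at hc2; omega
      · exact h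
    exact (H_zero_iff K (c % q) q hpos hlt).2 (hK _ hpos hlt hc2)
  have hg : 0 < Nat.gcd a q := Nat.gcd_pos_of_pos_right _ hq0
  have key := level_down hf (two_tor K) hq0 hpow h0 (Nat.gcd a q) (q / Nat.gcd a q)
    (Nat.mul_div_cancel' (Nat.gcd_dvd_right a q)) (a / Nat.gcd a q)
    (Nat.coprime_div_gcd_div_gcd hg)
  have e2 : ((a / Nat.gcd a q : ℕ) : ℚ) / ((q / Nat.gcd a q : ℕ) : ℚ) = (a : ℚ) / q := by
    have hg' : ((Nat.gcd a q : ℕ) : ℚ) ≠ 0 := by positivity
    rw [Nat.cast_div (Nat.gcd_dvd_left a q) hg', Nat.cast_div (Nat.gcd_dvd_right a q) hg',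
      div_div_div_cancel_right₀ hg']
  rw [e2] at key
  exact (H_zero_iff K a q ha1 ha2).1 key

end Pool.Agent.Helper24.LU
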