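import Pool.Agent.Helper24.LU.Di

/-!
# Project LT2 (MP_274814_nt), block T: independence of the primitive ratios
-/

set_option autoImplicit false

namespace Pool.Agent.Helper24.LU

open Set

/-- As many independent elements algebraic over a finite family as the family has members: the
family is independent. -/
theorem indep_of_card {I J : Type*} [Fintype I] (x : I → ℂ) (s : J → ℂ)
    (halg : ∀ j, IsAlgebraic (Algebra.adjoin ℚ (range x)) (s j))
    (f : Fin (Fintype.card I) → J) (hf : AlgebraicIndependent ℚ (fun k => s (f k))) :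
    AlgebraicIndependent ℚ x := by
  classical
  set M := AlgebraicIndependent.matroid ℚ ℂ with hM
  have hinj : Function.Injective (fun k => s (f k)) := hf.injective
  have h1 : M.Indep (range fun k => s (f k)) :=
    AlgebraicIndependent.matroid_indep_iff.2 hf.coe_range
  have h2 : (range fun k => s (f k)) ⊆ M.closure (range x) := by
    rw [hM, AlgebraicIndependent.matroid_closure_eq]
    rintro _ ⟨k, rfl⟩
    rw [SetLike.mem_coe, Subalgebra.mem_algebraicClosure]
    exact halg (f k)
  have h3 : (range fun k => s (f k)).encard = ((Fintype.card I : ℕ) : ℕ∞) := by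
    rw [← Set.image_univ, hinj.encard_image, Set.encard_univ, ENat.card_eq_coe_fintype_card,
      Fintype.card_fin]
  have h4 : ((Fintype.card I : ℕ) : ℕ∞) ≤ M.eRk (range x) := by
    rw [← M.eRk_closure_eq, ← h3, ← h1.eRk_eq_encard]
    exact M.eRk_mono h2
  have h5 : (range x).encard ≤ ((Fintype.card I : ℕ) : ℕ∞) := by
    rw [← Set.image_univ]
    refine (Set.encard_image_le _ _).trans ?_
    rw [Set.encard_univ, ENat.card_eq_coe_fintype_card]
  have hfin : (range x).Finite := Set.finite_range x
  have h6 : M.eRk (range x) = (range x).encard :=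
    le_antisymm (M.eRk_le_encard _) (h5.trans h4)
  have h7 : M.Indep (range x) := by
    obtain ⟨B, hB⟩ := M.exists_isBasis (range x)
    have h8 : B.encard = (range x).encard := by rw [hB.encard_eq_eRk, h6]
    have h9 : B = range x := by
      apply (hfin.subset hB.subset).eq_of_subset_of_encard_le hB.subset h8.ge
    rw [← h9]
    exact hB.indep
  have h10 : Function.Injective x := by
    have h11 : (range x).encard = ((Fintype.card I : ℕ) : ℕ∞) := le_antisymm h5 (h4.trans h6.le)
    have h13 : (x '' (univ : Set I)).encard = (univ : Set I).encard := by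
      rw [Set.image_univ, h11, Set.encard_univ, ENat.card_eq_coe_fintype_card]
    exact Set.injOn_univ.1 ((Set.finite_univ).injOn_of_encard_image_eq h13)
  have h12 : AlgebraicIndependent ℚ (fun y : range x => (y : ℂ)) :=
    AlgebraicIndependent.matroid_indep_iff.1 h7
  exact (algebraicIndependent_subtype_range h10).1 h12


open scoped IntermediateField.algebraAdjoinAdjoin in
/-- Algebraic over the field generated by a set is algebraic over the algebra. -/
theorem alg_adjoin (S : Set ℂ) {z : ℂ} (h : IsAlgebraic (IntermediateField.adjoin ℚ S) z) :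
    IsAlgebraic (Algebra.adjoin ℚ S) z :=
  (IsFractionRing.isAlgebraic_iff (Algebra.adjoin ℚ S) (IntermediateField.adjoin ℚ S) ℂ).2 h

/-- Algebraic independence of real numbers may be tested in the complex numbers. -/
theorem real_iff {I : Type*} {x : I → ℝ} :
    AlgebraicIndependent ℚ (fun i => ((x i : ℝ) : ℂ)) ↔ AlgebraicIndependent ℚ x :=
  AlgHom.algebraicIndependent_iff (Complex.ofRealAm.restrictScalars ℚ) Complex.ofReal_injective

/-- The indices of the primitive ratios. -/
abbrev Pidx (q : ℕ) := {a : ℕ // a ∈ (Finset.range q).filter (fun a => 2 * a < q ∧ a.Coprime q)}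

theorem Rr_symm (q a : ℕ) (ha : a ≤ q) (hq : 0 < q) : Rr q (q - a) = (Rr q a)⁻¹ := by
  unfold Rr
  have hq' : (q : ℝ) ≠ 0 := by exact_mod_cast hq.ne'
  rw [inv_div]
  have h1 : ((q - a : ℕ) : ℝ) / q = 1 - (a : ℝ) / q := by
    rw [Nat.cast_sub ha, sub_div, div_self hq']
  rw [h1, sub_sub_cancel]

theorem card_Pidx (q : ℕ) (hq : 2 < q) : Fintype.card (Pidx q) = Nat.totient q / 2 := by
  rw [Fintype.card_coe]
  set A := (Finset.range q).filter (fun a => 2 * a < q ∧ a.Coprime q) with hA
  set B := (Finset.range q).filter (fun a => q < 2 * a ∧ a.Coprime q) with hB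
  have h1 : A.card = B.card := by
    apply Finset.card_bij (fun a _ => q - a)
    · intro a ha
      rw [hA, Finset.mem_filter, Finset.mem_range] at ha
      have h0 : 0 < a := by
        rcases Nat.eq_zero_or_pos a with h | h
        · rw [h, Nat.coprime_zero_left] at ha; omega
        · exact h
      rw [hB, Finset.mem_filter, Finset.mem_range]
      refine ⟨by omega, by omega, ?_⟩
      exact (Nat.coprime_self_sub_left (by omega)).2 ha.2.2
    · intro a ha b hb hab
      rw [hA, Finset.mem_filter, Finset.mem_range] at ha hb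
      omega
    · intro b hb
      rw [hB, Finset.mem_filter, Finset.mem_range] at hb
      refine ⟨q - b, ?_, by omega⟩
      rw [hA, Finset.mem_filter, Finset.mem_range]
      refine ⟨by omega, by omega, ?_⟩
      exact (Nat.coprime_self_sub_left (by omega)).2 hb.2.2
  have h2 : (Finset.range q).filter (fun a => q.Coprime a) = A ∪ B := by
    ext a
    rw [hA, hB, Finset.mem_union, Finset.mem_filter, Finset.mem_filter, Finset.mem_filter,
      Nat.coprime_comm]
    constructor
    · rintro ⟨h3, h4⟩
      rcases Nat.lt_trichotomy (2 * a) q with h5 | h5 | h5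
      · exact Or.inl ⟨h3, h5, h4⟩
      · exfalso
        rw [← h5] at h4
        have h6 : a ∣ 1 := by
          have := Nat.dvd_gcd (dvd_refl a) (Dvd.intro_left 2 rfl : a ∣ 2 * a)
          rwa [h4] at this
        have : a = 1 := Nat.dvd_one.1 h6
        omega
      · exact Or.inr ⟨h3, h5, h4⟩
    · rintro (⟨h3, _, h4⟩ | ⟨h3, _, h4⟩)
      · exact ⟨h3, h4⟩
      · exact ⟨h3, h4⟩
  have h3 : Disjoint A B := by
    rw [Finset.disjoint_left]
    intro a ha hb
    rw [hA, Finset.mem_filter] at ha
    rw [hB, Finset.mem_filter] at hb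
    omega
  have h4 : Nat.totient q = A.card + B.card := by
    rw [Nat.totient_eq_card_coprime, h2, Finset.card_union_of_disjoint h3]
  omega

/-- **The primitive ratios.**  If `φ (q) / 2` of the ratios of level `q` are algebraically
independent and `q` is good then the primitive ratios are algebraically independent. -/
theorem prim_indep (q : ℕ) (hq : 2 < q)
    (hpow : ∀ p : ℕ, p.Prime → p ∣ q → ∃ k : ℕ, (p : ZMod (q / p ^ q.factorization p)) ^ k = -1)
    (f : Fin (Nat.totient q / 2) → {a : ℕ // 1 ≤ a ∧ a < q})
    (hf : AlgebraicIndependent ℚ (fun k => ((Rr q (f k) : ℝ) : ℂ))) :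
    AlgebraicIndependent ℚ (fun a : Pidx q => Rr q a) := by
  have h1 : AlgebraicIndependent ℚ (fun a : Pidx q => ((Rr q a : ℝ) : ℂ)) := by
    have hcard := card_Pidx q hq
    refine indep_of_card _ (fun a : {a : ℕ // 1 ≤ a ∧ a < q} => ((Rr q a : ℝ) : ℂ)) ?_
      (fun k => f (Fin.cast hcard k)) (hf.comp _ (Fin.cast_injective hcard))
    intro a
    apply alg_adjoin
    apply ratio_all q hq hpow _ _ a a.2.1 a.2.2
    intro c hc1 hc2 hc
    set K := IntermediateField.adjoin ℚ (Set.range fun a : Pidx q => ((Rr q a : ℝ) : ℂ))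
    have hmem : ∀ b : ℕ, 2 * b < q → b.Coprime q → ((Rr q b : ℝ) : ℂ) ∈ K := by
      intro b hb hbc
      apply IntermediateField.subset_adjoin
      refine ⟨⟨b, ?_⟩, rfl⟩
      rw [Finset.mem_filter, Finset.mem_range]
      exact ⟨by omega, hb, hbc⟩
    apply Pool.Agent.Helper24.GammaTr.isAlg_of_mem
    rcases Nat.lt_or_ge (2 * c) q with h2 | h2
    · exact hmem c h2 hc
    · have h3 : 2 * c ≠ q := by
        intro h3
        rw [← h3] at hc
        have h6 : c ∣ 1 := by
          have := Nat.dvd_gcd (dvd_refl c) (Dvd.intro_left 2 rfl : c ∣ 2 * c)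
          rwa [hc] at this
        have : c = 1 := Nat.dvd_one.1 h6
        omega
      have h4 : ((Rr q (q - c) : ℝ) : ℂ) ∈ K :=
        hmem (q - c) (by omega) ((Nat.coprime_self_sub_left (by omega)).2 hc)
      rw [Rr_symm q c hc2.le (by omega)] at h4
      push_cast at h4
      have := K.inv_mem h4
      rwa [inv_inv] at this
  exact real_iff.1 h1

end Pool.Agent.Helper24.LU
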